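import Pool.Agent.H592R2.MainW

/-!
# The levels `W[1] ⊊ W[2] ⊊ W[3] ⊊ …` with respect to para-AC0 reductions

All classes are taken with respect to nonuniform para-AC0 many-one reductions: for all inputs of
length `n` and parameter `k` the reduction is computed by AND/OR-formulas of constant depth and of
size `f k * (n + 1) ^ c`, and the parameter of the output is at most `g k`, where `f` and `g` are
arbitrary functions.

`pWSAT t d` is the problem `p-WSAT(C_{t,d})`: does a circuit of weft at most `t` and depth at most
`d` have a satisfying assignment of weight exactly `k`, the parameter being `k`; `WAC0 t` is the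
class of the problems reducible to one of the problems `pWSAT t d`, `d ≥ 1`.

For all `t ≥ 1`, the problem `pWSAT (t + 1) (2 * t + 3)` has no reduction to any of the problems
`pWSAT t d`, and the class on level `t + 1` is strictly larger than the class on level `t`.
-/

set_option autoImplicit false

namespace Pool.Agent.Results.MP_ddf912_lc.ParaACZeroLevels

open Pool.Agent.H592R2

theorem result (t : ℕ) (ht : 1 ≤ t) :
    (∀ d : ℕ, ¬ ParaAC0Red (pWSAT (t + 1) (2 * t + 3)) (pWSAT t d)) ∧
    WAC0 t ⊂ WAC0 (t + 1) := by
  refine ⟨fun d => ?_, WAC0_strict t ht⟩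
  obtain ⟨s, rfl⟩ : ∃ s, t = s + 1 := ⟨t - 1, by omega⟩
  have h := no_redW s d
  rwa [show 3 + 2 * (s + 1) = 2 * (s + 1) + 3 by omega] at h

end Pool.Agent.Results.MP_ddf912_lc.ParaACZeroLevels
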