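import Pool.Agent.Y581.WN.FinS

/-!
# The whole hierarchy `FPT ≠ W[1] ≠ W[2] ≠ …` and `W[1] ⊄ M[1]` near every oracle

An oracle `A` is close to the oracle `O` with the gauge `g` (`Close g O A`) if, for all large `n`,
they differ on at most `g n` strings of length at most `n`.

* If `g` is superpolynomial (`Super g`), then every oracle `O` is close to an oracle `A` relative to
  which, at the same time, `W[1]` is not contained in `M[1]` (even if `M[1]` is replaced by the
  larger class `InM1n` of all problems which are mapped, in polynomial time after an arbitrary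
  precomputation on the parameter `k`, to instances of size `(h(k) log n) ^ c` of a problem in
  `NP`), and for all `t ≥ 0` the model-checking problem for `Σ_{t+1,1}`-sentences, a problem in
  `W[t+1]`, is not in nonuniform `A[t] ⊇ W[t]`.
* If `g` is only not bounded by a power of the logarithm (`SuperLog g`), then every oracle `O` is
  close to an oracle relative to which, for all `t ≥ 1`, the model-checking problem for
  `Σ_{t+1,1}`-sentences is in `W[t+1]` and not in nonuniform `A[t]`; so the `W`-hierarchy is strict
  from its first level on.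
-/

set_option autoImplicit false

namespace Pool.Agent.Results.MP_ddf912_lc.StrictNearEveryOracle

open Pool.Agent.NPC Pool.Agent.H620R2.Gauge Pool.Agent.TH678.GC Pool.Agent.Y626.WG
open Pool.Agent.Y581.WN (InM1n SuperLog)
open Pool.Agent.W900.RB (Super)
open Pool.Agent.W900.CH (Close)

theorem result :
    (∀ g : ℕ → ℝ, Super g → ∀ O : Oracle, ∃ A : Oracle, Close g O A ∧
      (∀ t : ℕ, (∀ (α : Type) [TEnc α] (κ : α → ℕ) (P : α → Prop), InW t A κ P →
        InW (t + 1) A κ P ∧ InA t A κ P) ∧
      InW (t + 1) A (fun I : WInst (t + 1) => I.1.param) (fun I => I.1.Sat A) ∧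
      ¬ InA t A (fun I : WInst (t + 1) => I.1.param) (fun I => I.1.Sat A)) ∧
      ¬ InM1n A (fun I : WInst 1 => I.1.param) (fun I => I.1.Sat A)) ∧
    ∀ g : ℕ → ℝ, SuperLog g → ∀ O : Oracle, ∃ A : Oracle, Close g O A ∧
      ∀ t : ℕ, 1 ≤ t →
      (∀ (α : Type) [TEnc α] (κ : α → ℕ) (P : α → Prop), InW t A κ P →
        InW (t + 1) A κ P ∧ InA t A κ P) ∧
      InW (t + 1) A (fun I : WInst (t + 1) => I.1.param) (fun I => I.1.Sat A) ∧
      ¬ InA t A (fun I : WInst (t + 1) => I.1.param) (fun I => I.1.Sat A) :=
  ⟨fun _ hg O => Pool.Agent.Y581.WN.bothF hg O, fun _ hg O => Pool.Agent.Y581.WN.strictkF hg O⟩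

end Pool.Agent.Results.MP_ddf912_lc.StrictNearEveryOracle
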