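import Pool.Agent.Q329.CNF.Main

/-!
# Read-once tensor networks for 3-CNF satisfiability need dimension `2 ^ Ω(n)`

`p-log-SAT` of 3-CNF formulas, the complete problem of `M[1]`, asks whether a formula of size `m` with
`n ≤ k log m` variables is satisfiable. A formula is given by the bits which tell for each of the
`8 n ^ 3` possible clauses (`Clause n`) whether it belongs to the formula. The model: tree tensor
networks over any field (the leaves read one bit each and contain a vector for each value of it, the
inner nodes combine the vectors of their two children by an arbitrary bilinear map, the output is a
linear form of the vector of the root), in which each bit is read at most once. The shape of the tree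
is arbitrary; the vectors have `card W` coordinates (the bond dimension). A formula is accepted if the
output is not zero. A random network is a finite nonempty family of networks from which one is chosen
uniformly at random; the fields, trees and dimensions may be different.

(1) There is `D` such that for all `n ≥ D`: if the networks of a family never accept a formula of which
every assignment falsifies at least `n ^ 3 / 25000` clauses, and accept each satisfiable formula with
probability at least `2 ^ (-μ)`, then one of them has dimension `w` with `2 ^ n ≤ (2 ^ μ * w) ^ D`. As
`2 ^ n` is about `m ^ k`, this is a bound `m ^ Ω(k)` in the terms of the parameterized problem.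

(2) For `n ≥ 1` some linear network of dimension `2 ^ n` which reads each bit once counts the satisfying
assignments. So (1) is optimal up to the constant `D`.

The proof: by the replacement lemma (`Pool/Agent/TH700/PA`) a network that accepts the formulas of all
clauses satisfied by `q` for many `q` also accepts many mixtures, in which the clauses are divided into
boundedly many parts of at most `n ^ 3 / 64` clauses and each part shows another assignment `q`. Fix an
assignment `a`. As the parts are small there are at least `8 n` pairs of a part and a variable that
occurs often in the clauses of the part falsified by `a` (an isoperimetric argument), and for each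
such pair the assignment of the part must agree with `a` at the variable, up to `n` exceptions, if `a`
falsifies few clauses of the mixture. This has probability at most `4 ^ (-n)`, and there are only
`2 ^ n` assignments `a`.
-/

set_option autoImplicit false

namespace Pool.Agent.Results.MP_ddf912_lc.TensorNetworks

open Pool.Agent.Q329.CNF Pool.Agent.TH700.PA

/-- (1) There is `D` such that for all `n ≥ D` and all `μ`: a finite nonempty family of tree tensor
networks on the clause bits of 3-CNF formulas with `n` variables which read each bit at most once,
never accept a formula of which every assignment falsifies at least `n ^ 3 / 25000` clauses, and accept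
each satisfiable formula with probability at least `2 ^ (-μ)`, contains a network of bond dimension `w`
with `2 ^ n ≤ (2 ^ μ * w) ^ D`.

(2) For `n ≥ 1` some linear network over the rational numbers which reads each bit once and has the bond
dimension `2 ^ n` (one basis vector for each assignment) computes the number of satisfying
assignments. -/
theorem result :
    (∃ D : ℕ, 0 < D ∧ ∀ n : ℕ, D ≤ n →
      ∀ (μ : ℕ) (R : Type) [Fintype R] [Nonempty R] (K W : R → Type) [∀ ρ, Field (K ρ)]
        [∀ ρ, Fintype (W ρ)] (T : ∀ ρ, Net (K ρ) (Clause n) Bool (W ρ)) (a : ∀ ρ, W ρ → K ρ),
        (∀ ρ v, (T ρ).reads v ≤ 1) →
        (∀ ρ x, FarFromSatisfiable x → (T ρ).value (a ρ) x = 0) →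
        (∀ x, Satisfiable x →
          Nat.card R ≤ 2 ^ μ * Nat.card {ρ // (T ρ).value (a ρ) x ≠ 0}) →
        ∃ ρ, 2 ^ n ≤ (2 ^ μ * Fintype.card (W ρ)) ^ D) ∧
    ∀ n : ℕ, 1 ≤ n →
      ∃ (T : Net ℚ (Clause n) Bool (Fin n → Bool)) (a : (Fin n → Bool) → ℚ),
        T.Linear ∧ (∀ v, T.reads v = 1) ∧
        ∀ x, T.value a x = Nat.card {q : Fin n → Bool // ∀ v, x v = true → ¬ Falsifies q v} :=
  ⟨lower, fun n hn => upper hn⟩

end Pool.Agent.Results.MP_ddf912_lc.TensorNetworks
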