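import Pool.Agent.Q329.UX.Gen
import Pool.Agent.H679R2.M1.Main

/-!
# `p-CLIQUE` is not reducible to `p-log-SAT(Γ_{1,d})` by circuits with unreliable negations

`M[1]` is the closure under fpt-reductions of the problems `p-log-SAT(Γ_{1,d})`: satisfiability of
formulas of size `m` with at most `d` literals per clause, parameterized by `⌈v / log m⌉`, where `v`
is the number of variables. An fpt-reduction of `p-CLIQUE` to this problem maps a graph with `n`
vertices and a number `k` to a formula with `v ≤ g k * log m` variables, where `m ≤ f k * n ^ c`.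

The input: for all pairs `e` of vertices and all tags `j < K`, the bit of the position `(e, j)` tells
whether there is the edge `e` with the tag `j` (the name of the edge). Only graphs in which each edge
has one tag are considered; the tag has no meaning.

The reductions: randomised circuits of AND and OR gates of fan-in two whose inputs are these bits and
their negations (all circuits with AND, OR and NOT gates can be brought into this form by doubling
their size), with one output for each possible clause `c`, which tells whether `c` is omitted from the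
formula. There is no bound on the depth. A randomised reduction is a finite nonempty family of
circuits from which one is chosen uniformly at random.

Faults: each negated input (the information that there is no edge `e` with the tag `j`) is stuck at
`0`, independently with probability `1 / D`. The other inputs are reliable.

Theorem: let `f`, `g`, `s` be arbitrary functions with `s k ≥ k`, and let `c` and `d` be numbers. For
all large `k`, all large `n`, all `D` and all `K ≥ D (2 log n + 4)` there is no family of circuits
with at most `f k * n ^ c` gates and formulas with at most `g k * (log (f k * n ^ c) + 1)` variables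
such that the formula is satisfiable with probability at least `4 / 5` under faults for the graphs
with a clique of `s k` vertices, and with probability at most `1 / 4` without faults for the graphs
without clique of `k` vertices.

So `W[1]` is not contained in `M[1]` for reductions of this kind, although faults are rare (`D` may be
large) and the reduction may repeat and combine its computations in any way. Without faults the
model is universal: all reductions in polynomial time have this form.

The proof: the graph is hidden at random tags; the tags which other edges would get are as good as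
random faulty inputs (`Pool/Agent/Y630`), so all negated inputs that depend on the graph can be
replaced by `0`. The formula has only `(log n) ^ O(1)` possible clauses, so its satisfiability is
one gate with few inputs, and the average-case bound `fpt_gap` of the starting development
`Pool/Agent/H559R10` for circuits with few arbitrary gates is used.
-/

set_option autoImplicit false

namespace Pool.Agent.Results.MP_ddf912_lc.UnreliableNegations

open Pool.Agent.Q329.UX Finset Filter Pool.Agent.H520R2.NM Pool.Agent.H679R2.M1

/-- The positions: the edge `e` with the tag `j < K`. -/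
abbrev Position (n K : ℕ) : Type := Sym2 (Fin n) × Fin K

/-- The graph which is given by the bits `z` (pairs of equal vertices do not matter). -/
def graph {n K : ℕ} (z : Position n K → Bool) : SimpleGraph (Fin n) :=
  SimpleGraph.fromEdgeSet {e | ∃ j, z (e, j) = true}

/-- Each edge has at most one tag. -/
def Tagged {n K : ℕ} (z : Position n K → Bool) : Prop :=
  ∀ e j j', z (e, j) = true → z (e, j') = true → j = j'

/-- A reduction to the satisfiability of formulas with `v` variables and at most `d` literals per
clause, computed by a circuit of AND and OR gates whose inputs are the bits of the positions `e` in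
`E` and their negations: `(e, true)` stands for the bit of `e` and `(e, false)` for its negation. The
clause `c` is omitted from the formula if the wire `omits c` carries `1`. (`Circuit` and `Wire` are
defined in `Pool/Agent/H520R2/NMDefs.lean`, there are no arbitrary gates; `Clause` and `Sat` are
defined in `Pool/Agent/H679R2/M1/Defs.lean`.) -/
structure ClauseCircuit (E : Type) (v d : ℕ) where
  N : ℕ
  C : Circuit (E × Bool) N
  omits : Clause v d → Wire (E × Bool) N
  pure : C.fanins = []

/-- The formula for the values `y` of the literals is satisfiable. -/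
def ClauseCircuit.Accepts {E : Type} {v d : ℕ} (C : ClauseCircuit E v d) (y : E × Bool → Bool) :
    Prop :=
  Sat fun c => !(C.omits c).eval y (C.C.vals y)

/-- The family of reductions `C` is right for graphs with a clique of `s` vertices and graphs without
clique of `k` vertices, in the presence of faults with probability `1 / D` (`faultyP`, `accP`:
`Pool/Agent/Q329/UX/Gen.lean`). -/
def Tolerates {n K d : ℕ} {R : Type} {v : R → ℕ} (C : (ρ : R) → ClauseCircuit (Position n K) (v ρ) d)
    (s k D : ℕ) : Prop :=
  (∀ z, Tagged z → ¬ (graph z).CliqueFree s → 4 / 5 ≤ faultyP (fun ρ => (C ρ).Accepts) D z) ∧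
    ∀ z, Tagged z → (graph z).CliqueFree k → accP (fun ρ => (C ρ).Accepts) z ≤ 1 / 4

theorem result (f g s : ℕ → ℕ) (hs : ∀ k, k ≤ s k) (c d : ℕ) :
    ∀ᶠ k : ℕ in atTop, ∀ᶠ n : ℕ in atTop, ∀ D : ℕ, 1 ≤ D → ∀ K : ℕ,
      D * (2 * Real.log n + 4) ≤ K → ∀ (R : Type) [Finite R] [Nonempty R] (v : R → ℕ)
      (C : (ρ : R) → ClauseCircuit (Position n K) (v ρ) d),
      (∀ ρ, v ρ ≤ g k * (Nat.log 2 (f k * n ^ c) + 1)) →
      (∀ ρ, (C ρ).C.size ≤ f k * n ^ c) → ¬ Tolerates C (s k) k D := by
  classical
  have hmain := H559R10.fpt_gap (fun k => f k + 1) s hs (c + 1) 1 (by norm_num) (by norm_num)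
  filter_upwards [hmain] with k hk
  obtain ⟨α, hα, hn⟩ := hk
  have hsmall : ∀ᶠ n : ℕ in atTop, (n : ℝ) ^ (-α) < 1 / 4 :=
    ((tendsto_rpow_neg_atTop hα).comp tendsto_natCast_atTop_atTop).eventually
      (gt_mem_nhds (show (0 : ℝ) < 1 / 4 by norm_num))
  filter_upwards [hn, hsmall, log_small (g k) (f k) c d (show (0 : ℝ) < 1 / 2 by norm_num),
    eventually_ge_atTop 4] with n hn hms hlg hn4
  intro D hD K hK R _ _ v C hv hsz hC
  let _ : Fintype R := Fintype.ofFinite R
  obtain ⟨⟨Λ, iΛ, nΛ, x, hx, hmx⟩, -⟩ := hn
  have hn1 : 1 ≤ n := by omega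
  have hnr : (1 : ℝ) ≤ n := by exact_mod_cast hn1
  have hn0 : (0 : ℝ) < n := by linarith
  have hDR : (1 : ℝ) ≤ D := by exact_mod_cast hD
  have hlog : 0 ≤ Real.log n := Real.log_nonneg hnr
  have hK0 : 0 < K := by
    have h1 : (0 : ℝ) < K := lt_of_lt_of_le (by positivity) hK
    exact_mod_cast h1
  have : NeZero K := ⟨hK0.ne'⟩
  have : NeZero n := ⟨by omega⟩
  have hcard : (Fintype.card (Sym2 (Fin n)) : ℝ) ≤ (n : ℝ) ^ 2 := by
    have h2 : Fintype.card (Sym2 (Fin n)) ≤ Fintype.card (Fin n × Fin n) :=
      Fintype.card_le_of_surjective (fun z : Fin n × Fin n => s(z.1, z.2)) fun e => by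
        induction e using Sym2.ind with
        | _ u v => exact ⟨(u, v), rfl⟩
    rw [Fintype.card_prod, Fintype.card_fin] at h2
    calc (Fintype.card (Sym2 (Fin n)) : ℝ) ≤ ((n * n : ℕ) : ℝ) := by exact_mod_cast h2
      _ = (n : ℝ) ^ 2 := by push_cast; ring
  have hbad : (Fintype.card (Sym2 (Fin n)) : ℝ) * (1 - 1 / (D : ℝ)) ^ Fintype.card (Fin K) ≤
      1 / 40 := by
    rw [Fintype.card_fin (n := K)]
    have h2 := Pool.Agent.Y630.TG.places_bad (D := D) (K := K) (n := (n : ℝ) ^ 2) (by omega)
      (by positivity) (by rw [Real.log_pow]; push_cast; exact hK)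
    have h3 : (0 : ℝ) ≤ (1 - 1 / (D : ℝ)) ^ K := by
      apply pow_nonneg
      rw [sub_nonneg, div_le_one (by linarith)]
      exact hDR
    exact (mul_le_mul_of_nonneg_right hcard h3).trans h2
  set slot : Sym2 (Fin n) × Fin K ↪ Position n K := Function.Embedding.refl _ with hslot
  have hedge : ∀ (y : Sym2 (Fin n) → Bool) (τ : Sym2 (Fin n) → Fin K),
      graph (Pool.Agent.Y630.TF.host slot (fun _ => false) τ y) =
        SimpleGraph.fromEdgeSet {e | y e = true} := by
    intro y τ
    unfold graph
    congr 1
    ext e
    refine ⟨?_, fun he => ⟨τ e, ?_⟩⟩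
    · rintro ⟨j, hj⟩
      rw [Pool.Agent.Y630.TF.host_true] at hj
      rcases hj with hj | ⟨x', h1, h2⟩
      · exact absurd hj (by simp)
      · have h3 : x' = e := congrArg Prod.fst h2
        rwa [h3] at h1
    · rw [Pool.Agent.Y630.TF.host_true]
      exact Or.inr ⟨e, he, rfl⟩
  have hin : ∀ l (τ : Sym2 (Fin n) → Fin K),
      Tagged (Pool.Agent.Y630.TF.host slot (fun _ => false) τ (x l)) := by
    intro l τ e j j' h1 h2
    rw [Pool.Agent.Y630.TF.host_true] at h1 h2
    rcases h1 with h1 | ⟨x1, -, h1⟩
    · exact absurd h1 (by simp)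
    rcases h2 with h2 | ⟨x2, -, h2⟩
    · exact absurd h2 (by simp)
    have e1 : x1 = e := congrArg Prod.fst h1
    have e2 : x2 = e := congrArg Prod.fst h2
    have e3 : τ x1 = j := congrArg Prod.snd h1
    have e4 : τ x2 = j' := congrArg Prod.snd h2
    rw [← e3, ← e4, e1, e2]
  have hmono : ∀ (ρ : R) (u w : Position n K × Bool → Bool), u ≤ w → (C ρ).Accepts u →
      (C ρ).Accepts w := by
    rintro ρ u w huw ⟨a, ha⟩
    refine ⟨a, fun cl hcl => ha cl ?_⟩
    have h2 := wire_mono ((C ρ).omits cl) huw (circuit_mono (C ρ).C (C ρ).pure huw)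
    have hcl2 : (!((C ρ).omits cl).eval w ((C ρ).C.vals w)) = true := hcl
    show (!((C ρ).omits cl).eval u ((C ρ).C.vals u)) = true
    clear hcl
    revert h2 hcl2
    generalize ((C ρ).omits cl).eval u ((C ρ).C.vals u) = p
    generalize ((C ρ).omits cl).eval w ((C ρ).C.vals w) = q
    revert p q
    decide
  obtain ⟨ω, hω⟩ := exists_right (fun ρ => (C ρ).Accepts) hmono (by omega : 0 < D) slot
    (fun _ => false) hbad x
    (fun l => ¬ (SimpleGraph.fromEdgeSet {e | x l e = true}).CliqueFree (s k))
    (fun l hl τ => hC.1 _ (hin l τ) (by rw [hedge]; exact hl))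
    (fun l hl τ => hC.2 _ (hin l τ) (by
      rw [hedge]
      rcases hx l with h | h
      · exact absurd h hl
      · exact h))
  -- the circuit for the hidden graph
  obtain ⟨σ, cst, hσ⟩ := Pool.Agent.Y630.TR.rlit_lsb slot (fun _ => false) ω.2
  set σ' : Position n K × Bool → Sym2 (Fin n) ⊕ Bool :=
    fun l => (σ l).elim (Sum.inr (cst l)) Sum.inl with hσ'
  have hsub : ∀ y : Sym2 (Fin n) → Bool, (fun l => Sum.elim y id (σ' l)) =
      Pool.Agent.Y630.TF.rlit slot (fun _ => false) ω.2 y := by
    intro y
    rw [hσ y]
    funext l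
    show Sum.elim y id ((σ l).elim (Sum.inr (cst l)) Sum.inl) = (σ l).elim (cst l) y
    cases σ l <;> rfl
  obtain ⟨w, hw⟩ : ∃ w, w = Fintype.card (Clause (v ω.1) d) := ⟨_, rfl⟩
  let idx' : Clause (v ω.1) d ≃ Fin w := (Fintype.equivFin _).trans (finCongr hw.symm)
  set C' : Circuit (Sym2 (Fin n)) ((C ω.1).N + 1) := Circuit.any (subCircuit σ' (C ω.1).C) w 1
    (fun b _ => decide (Sat fun cl => !b (idx' cl)))
    (fun j => subWire σ' ((C ω.1).omits (idx'.symm j))) with hC'
  have hval : ∀ y : Sym2 (Fin n) → Bool,
      (Wire.gate (Fin.natAdd (C ω.1).N 0) : Wire (Sym2 (Fin n)) ((C ω.1).N + 1)).eval y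
        (C'.vals y) = decide ((C ω.1).Accepts
          (Pool.Agent.Y630.TF.rlit slot (fun _ => false) ω.2 y)) := by
    intro y
    have h : (Wire.gate (Fin.natAdd (C ω.1).N 0) : Wire (Sym2 (Fin n)) ((C ω.1).N + 1)).eval y
        (C'.vals y) = Fin.append ((subCircuit σ' (C ω.1).C).vals y) (fun _ : Fin 1 =>
          decide (Sat fun cl => !(fun j => (subWire σ' ((C ω.1).omits (idx'.symm j))).eval y
            ((subCircuit σ' (C ω.1).C).vals y)) (idx' cl))) (Fin.natAdd (C ω.1).N 0) := rfl
    rw [h, Fin.append_right]
    simp only [Equiv.symm_apply_apply]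
    unfold ClauseCircuit.Accepts
    congr 1
    simp only [subWire_eval, subCircuit_vals, hsub]
  have hwn : ((w + 1 : ℕ) : ℝ) ≤ (n : ℝ) := by
    have h1 : w + 1 ≤ 2 * (2 * (g k * (Nat.log 2 (f k * n ^ c) + 1)) + 1) ^ d := by
      have h2 : w ≤ (2 * v ω.1 + 1) ^ d := by
        rw [hw]
        exact card_clause _ _
      have h3 : (2 * v ω.1 + 1) ^ d ≤ (2 * (g k * (Nat.log 2 (f k * n ^ c) + 1)) + 1) ^ d :=
        Nat.pow_le_pow_left (by have := hv ω.1; omega) d
      have h4 : 1 ≤ (2 * (g k * (Nat.log 2 (f k * n ^ c) + 1)) + 1) ^ d :=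
        Nat.one_le_pow _ _ (by omega)
      omega
    have h5 : (2 : ℝ) ≤ (n : ℝ) ^ ((1 : ℝ) / 2) := by
      rw [← Real.sqrt_eq_rpow]
      apply Real.le_sqrt_of_sq_le
      have : (4 : ℝ) ≤ n := by exact_mod_cast hn4
      linarith
    calc ((w + 1 : ℕ) : ℝ)
        ≤ ((2 * (2 * (g k * (Nat.log 2 (f k * n ^ c) + 1)) + 1) ^ d : ℕ) : ℝ) := by
          exact_mod_cast h1
      _ = 2 * (((2 * (g k * (Nat.log 2 (f k * n ^ c) + 1)) + 1) ^ d : ℕ) : ℝ) := by
          push_cast
          ring
      _ ≤ (n : ℝ) ^ ((1 : ℝ) / 2) * (n : ℝ) ^ ((1 : ℝ) / 2) :=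
          mul_le_mul h5 hlg (Nat.cast_nonneg _) (by linarith)
      _ = (n : ℝ) := by
          rw [← Real.rpow_add hn0]
          norm_num
  have hfan : C'.fanins = [w] := by
    have h1 : C'.fanins = w :: (subCircuit σ' (C ω.1).C).fanins := rfl
    rw [h1, subCircuit_fanins, (C ω.1).pure]
  have hsize : C'.size = (C ω.1).C.size := by
    have h1 : C'.size = (subCircuit σ' (C ω.1).C).size := rfl
    rw [h1, subCircuit_size]
  have h2 := hmx _ C' (.gate (Fin.natAdd (C ω.1).N 0)) (by
    rw [hfan]
    simp only [List.map_cons, List.map_nil, List.prod_cons, List.prod_nil, mul_one]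
    rw [Real.rpow_one]
    exact hwn) (by
    rw [hfan, hsize]
    simp only [List.sum_cons, List.sum_nil, add_zero]
    have h3 : w ≤ n := by
      have h4 : w + 1 ≤ n := by exact_mod_cast hwn
      omega
    have h5 : n ^ c ≤ n ^ (c + 1) := Nat.pow_le_pow_right hn1 (by omega)
    have h6 : n ≤ n ^ (c + 1) := by
      calc n = n ^ 1 := (pow_one n).symm
        _ ≤ n ^ (c + 1) := Nat.pow_le_pow_right hn1 (by omega)
    calc (C ω.1).C.size + w ≤ f k * n ^ c + n := Nat.add_le_add (hsz ω.1) h3
      _ ≤ f k * n ^ (c + 1) + n ^ (c + 1) := Nat.add_le_add (Nat.mul_le_mul_left _ h5) h6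
      _ = (f k + 1) * n ^ (c + 1) := by ring)
  have hΛ : (0 : ℝ) < Fintype.card Λ := by exact_mod_cast Fintype.card_pos
  have h3 : (Nat.card {l // (C ω.1).Accepts (Pool.Agent.Y630.TF.rlit slot (fun _ => false) ω.2
      (x l)) ↔ ¬ (SimpleGraph.fromEdgeSet {e | x l e = true}).CliqueFree (s k)} : ℝ) ≤
      ((univ.filter (fun l => H559R10.RightGap (s k) k (x l)
        ((Wire.gate (Fin.natAdd (C ω.1).N 0) : Wire (Sym2 (Fin n)) ((C ω.1).N + 1)).eval (x l)
          (C'.vals (x l))))).card : ℝ) := by
    rw [Nat.card_eq_fintype_card, Fintype.card_subtype]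
    norm_cast
    refine Finset.card_le_card fun l hl => ?_
    rw [Finset.mem_filter] at hl ⊢
    refine ⟨Finset.mem_univ _, ?_⟩
    rw [hval]
    constructor
    · intro h
      exact decide_eq_true (hl.2.mpr h)
    · intro h
      refine decide_eq_false fun h' => hl.2.mp h' ?_
      exact h.mono (hs k)
  rw [Nat.card_eq_fintype_card] at hω
  have h4 := lt_of_le_of_lt (hω.trans h3) h2
  nlinarith

end Pool.Agent.Results.MP_ddf912_lc.UnreliableNegations
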